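import Mathlib

/-!
# Project CI (MP_d090fc_lc): the combinatorial core

`B` is a complete Boolean algebra.  Names of reals, functions, null sets, meager sets as
`B`-valued functions, and the list of properties of `B` which give the chain in the
Boolean valued universe.
-/

set_option autoImplicit false

open Cardinal

namespace CI

universe u

section

variable (B : Type u) [CompleteBooleanAlgebra B]

/-- name of a subset of `ω`, that is of a point of the Cantor space: `x n = ⟦n ∈ x⟧` -/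
abbrev Rl : Type u := ℕ → B

variable {B}

/-- `⟦x ∩ n = a⟧` -/
def cutV (x : Rl B) (n : ℕ) (a : Finset ℕ) : B :=
  ⨅ i : Fin n, if (i : ℕ) ∈ a then x i else (x i)ᶜ

/-- `⟦x = y⟧` -/
def rlEq (x y : Rl B) : B := ⨅ n, (x n ⇨ y n) ⊓ (y n ⇨ x n)

variable (B) in
/-- name of an open set: `O n a` is the truth value of `the cylinder of (n, a)` belongs to the
code, for `a ⊆ n` (the cylinder is the set of all `x` with `x ∩ n = a`); closed under passing to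
smaller cylinders -/
structure OpnC where
  O : ℕ → Finset ℕ → B
  mono : ∀ n a, a ⊆ Finset.range n → O n a ≤ O (n + 1) a ⊓ O (n + 1) (insert n a)

/-- `⟦x ∈ U⟧` -/
def OpnC.mem (U : OpnC B) (x : Rl B) : B :=
  ⨆ n : ℕ, ⨆ a : Finset ℕ, ⨆ _ : a ⊆ Finset.range n, U.O n a ⊓ cutV x n a

/-- the open set has measure at most `2 ^ (-k)` (with truth value `⊤`) -/
def OpnC.Le (U : OpnC B) (k : ℕ) : Prop :=
  ∀ (n : ℕ) (A : Finset (Finset ℕ)), (∀ a ∈ A, a ⊆ Finset.range n) → 2 ^ n < 2 ^ k * A.card →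
    ⨅ a ∈ A, U.O n a = ⊥

variable (B) in
/-- name of a `G_δ` set of measure zero -/
structure NulC where
  U : ℕ → OpnC B
  le : ∀ k, (U k).Le k

/-- `⟦x ∈ N⟧` -/
def NulC.mem (c : NulC B) (x : Rl B) : B := ⨅ k, (c.U k).mem x

variable (B) in
/-- name of a closed set: the complement of the open set is closed; `T n a` is the truth value
of `the cylinder of (n, a) meets the set`, for `a ⊆ n` -/
structure CloC where
  T : ℕ → Finset ℕ → B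
  zero : ∀ n a, a ⊆ Finset.range n → T n a = T (n + 1) a ⊔ T (n + 1) (insert n a)

/-- `⟦x ∈ F⟧` -/
def CloC.mem (F : CloC B) (x : Rl B) : B :=
  ⨅ n : ℕ, ⨆ a : Finset ℕ, ⨆ _ : a ⊆ Finset.range n, F.T n a ⊓ cutV x n a

/-- the closed set has measure zero (with truth value `⊤`): for every `k` there is `n` such that
at most `2 ^ (n - k)` cylinders of level `n` meet the set -/
def CloC.Nul (F : CloC B) : Prop :=
  ∀ k : ℕ, ⨆ n : ℕ, ⨅ A : Finset (Finset ℕ), ⨅ _ : (∀ a ∈ A, a ⊆ Finset.range n) ∧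
    2 ^ n < 2 ^ k * A.card, (⨅ a ∈ A, F.T n a)ᶜ = ⊤

/-- the closed set has no interior points (with truth value `⊤`): every cylinder `(n, a)` has a
subcylinder `(m, b)` which does not meet the set -/
def CloC.Nwd (F : CloC B) : Prop :=
  ∀ n a, a ⊆ Finset.range n → ⨆ m : ℕ, ⨆ b : Finset ℕ, ⨆ _ : b ⊆ Finset.range m ∧ n ≤ m ∧
    b ∩ Finset.range n = a, (F.T m b)ᶜ = ⊤

/-- name of a function from `ω` to `ω`: `f n k = ⟦f(n) = k⟧` -/
structure Fu (B : Type u) [CompleteBooleanAlgebra B] where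
  f : ℕ → ℕ → B
  disj : ∀ n k k', k ≠ k' → f n k ⊓ f n k' = ⊥
  top : ∀ n, ⨆ k, f n k = ⊤

/-- `⟦f ≤* g⟧` -/
def Fu.le (f g : Fu B) : B :=
  ⨆ m : ℕ, ⨅ n : ℕ, ⨅ _ : m ≤ n, ⨆ i : ℕ, ⨆ j : ℕ, ⨆ _ : i ≤ j, f.f n i ⊓ g.f n j

variable (B) in
/-- every antichain is countable -/
def Ccc : Prop := ∀ s : Set B, (∀ a ∈ s, a ≠ ⊥) → (∀ a ∈ s, ∀ b ∈ s, a ≠ b → a ⊓ b = ⊥) →
  s.Countable

variable (B) in
/-- the properties of the complete Boolean algebra which give the chain -/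
structure CoreProps (l : Fin 8 → Cardinal.{u}) : Prop where
  nontriv : (⊥ : B) ≠ ⊤
  ccc : Ccc B
  aleph : l 0 = ℵ₁
  lt : ∀ i j, i < j → l i < l j
  addN_ge : ∀ (I : Type u), #I < l 1 → ∀ c : I → NulC B, ∃ d : NulC B,
    ∀ i x, (c i).mem x ≤ d.mem x
  addN_le : ∃ (I : Type u) (c : I → NulC B), #I = l 1 ∧ ∀ d : NulC B,
    ⨅ i, ⨅ x, (c i).mem x ⇨ d.mem x = ⊥
  b_ge : ∀ (I : Type u), #I < l 2 → ∀ f : I → Fu B, ∃ g : Fu B, ∀ i, (f i).le g = ⊤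
  b_le : ∃ (I : Type u) (f : I → Fu B), #I = l 2 ∧ ∀ g : Fu B, ⨅ i, (f i).le g = ⊥
  covN_ge : ∀ (I : Type u), #I < l 3 → ∀ c : I → NulC B, ∃ x : Rl B, ∀ i, (c i).mem x = ⊥
  covN_le : ∃ (I : Type u) (c : I → NulC B), #I = l 3 ∧ ∀ x : Rl B, ⨆ i, (c i).mem x = ⊤
  nonE_ge : ∀ (I : Type u), #I < l 4 → ∀ x : I → Rl B, ∃ F : ℕ → CloC B, (∀ n, (F n).Nul) ∧
    ∀ i, ⨆ n, (F n).mem (x i) = ⊤
  nonE_le : ∃ (I : Type u) (x : I → Rl B), #I = l 4 ∧ ∀ F : ℕ → CloC B, (∀ n, (F n).Nul) →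
    ⨅ i, ⨆ n, (F n).mem (x i) = ⊥
  nonM_ge : ∀ (I : Type u), #I < l 5 → ∀ x : I → Rl B, ∃ F : ℕ → CloC B, (∀ n, (F n).Nwd) ∧
    ∀ i, ⨆ n, (F n).mem (x i) = ⊤
  nonM_le : ∃ (I : Type u) (x : I → Rl B), #I = l 5 ∧ ∀ F : ℕ → CloC B, (∀ n, (F n).Nwd) →
    ⨅ i, ⨆ n, (F n).mem (x i) = ⊥
  covM_ge : ∀ (I : Type u), #I < l 6 → ∀ F : I → ℕ → CloC B, (∀ i n, (F i n).Nwd) →
    ∃ x : Rl B, ∀ i n, (F i n).mem x = ⊥
  covM_le : ∃ (I : Type u) (F : I → ℕ → CloC B), #I = l 6 ∧ (∀ i n, (F i n).Nwd) ∧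
    ∀ x : Rl B, ⨆ i, ⨆ n, (F i n).mem x = ⊤
  covE_ge : ∀ (I : Type u), #I < l 7 → ∀ F : I → ℕ → CloC B, (∀ i n, (F i n).Nul) →
    ∃ x : Rl B, ∀ i n, (F i n).mem x = ⊥
  nonN_ge : ∀ (I : Type u), #I < l 7 → ∀ x : I → Rl B, ∃ c : NulC B, ∀ i, c.mem (x i) = ⊤
  d_ge : ∀ (I : Type u), #I < l 7 → ∀ g : I → Fu B, ∃ f : Fu B, ∀ i, f.le (g i) = ⊥
  c_le : #(ℕ → B) ≤ l 7

end

end CI
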