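import Pool.Agent.CI.Model
import Pool.Agent.CI.Core

/-!
# Project CI (MP_d090fc_lc): the two halves and the final statement
-/

set_option autoImplicit false

namespace CI

/-- top half: Boolean valued universe over `B`, quotient by an ultrafilter -/
def TopStatement : Prop :=
  ∀ (B : Type) [CompleteBooleanAlgebra B] (l : Fin 8 → Cardinal.{0}), CoreProps B l →
    ∃ (M : Type 1) (E : M → M → Prop), ZFC E ∧ Chain E

/-- core half: the complete Boolean algebra -/
def CoreStatement : Prop :=
  ∃ (B : Type) (_ : CompleteBooleanAlgebra B) (l : Fin 8 → Cardinal.{0}), CoreProps B l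

/-- the final statement: there is a model of ZFC in which the chain of Q1 holds -/
theorem final_of (h1 : TopStatement) (h2 : CoreStatement) :
    ∃ (M : Type 1) (E : M → M → Prop), ZFC E ∧ Chain E := by
  obtain ⟨B, _, l, h⟩ := h2
  exact h1 B l h

end CI
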