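import Mathlib

/-!
# Project CI (MP_d090fc_lc): models of ZFC and the notions of the problem inside a model

`M` is a type, `E x y` means: `x` is an element of `y`.
-/

set_option autoImplicit false

namespace CI

/-- formulas of the language of set theory with `n` free variables -/
inductive Fm : ℕ → Type
  | mem {n : ℕ} (i j : Fin n) : Fm n
  | eq {n : ℕ} (i j : Fin n) : Fm n
  | bot {n : ℕ} : Fm n
  | imp {n : ℕ} (p q : Fm n) : Fm n
  | all {n : ℕ} (p : Fm (n + 1)) : Fm n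

section

universe u

variable {M : Type u} (E : M → M → Prop)

/-- satisfaction; in `all p` the new variable has number `0` -/
def Fm.sat : {n : ℕ} → Fm n → (Fin n → M) → Prop
  | _, .mem i j, v => E (v i) (v j)
  | _, .eq i j, v => v i = v j
  | _, .bot, _ => False
  | _, .imp p q, v => Fm.sat p v → Fm.sat q v
  | _, .all p, v => ∀ x : M, Fm.sat p (Fin.cons x v)

/-- the axioms of Zermelo-Fraenkel set theory with choice -/
structure ZFC : Prop where
  ext : ∀ x y, (∀ z, E z x ↔ E z y) → x = y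
  found : ∀ x, (∃ y, E y x) → ∃ y, E y x ∧ ∀ z, E z y → ¬ E z x
  pair : ∀ x y, ∃ z, ∀ w, E w z ↔ w = x ∨ w = y
  union : ∀ x, ∃ y, ∀ z, E z y ↔ ∃ w, E w x ∧ E z w
  power : ∀ x, ∃ y, ∀ z, E z y ↔ ∀ w, E w z → E w x
  inf : ∃ x, (∃ e, E e x ∧ ∀ z, ¬ E z e) ∧
    ∀ y, E y x → ∃ s, E s x ∧ ∀ z, E z s ↔ E z y ∨ z = y
  sep : ∀ (n : ℕ) (p : Fm (n + 1)) (v : Fin n → M) (a : M),
    ∃ b, ∀ x, E x b ↔ E x a ∧ p.sat E (Fin.cons x v)
  repl : ∀ (n : ℕ) (p : Fm (n + 2)) (v : Fin n → M) (a : M),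
    (∀ x, E x a → ∃! y, p.sat E (Fin.cons y (Fin.cons x v))) →
    ∃ b, ∀ y, E y b ↔ ∃ x, E x a ∧ p.sat E (Fin.cons y (Fin.cons x v))
  choice : ∀ a, (∀ x, E x a → ∃ y, E y x) →
    (∀ x y, E x a → E y a → x ≠ y → ∀ z, ¬ (E z x ∧ E z y)) →
    ∃ c, ∀ x, E x a → ∃! y, E y x ∧ E y c

/-! ### notions of set theory inside `M` -/

/-- `x` is a subset of `y` -/
def Sub (x y : M) : Prop := ∀ z, E z x → E z y

/-- `x` is empty -/
def IsEmp (x : M) : Prop := ∀ z, ¬ E z x

/-- `p` is the Kuratowski pair `{{x}, {x, y}}` -/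
def IsPair (p x y : M) : Prop :=
  ∀ z, E z p ↔ (∀ w, E w z ↔ w = x) ∨ (∀ w, E w z ↔ w = x ∨ w = y)

/-- the pair of `x` and `y` belongs to `r` -/
def Rel (r x y : M) : Prop := ∃ p, IsPair E p x y ∧ E p r

/-- `f` is a function with domain `a` -/
def IsFn (f a : M) : Prop :=
  (∀ p, E p f → ∃ x y, E x a ∧ IsPair E p x y) ∧ ∀ x, E x a → ∃! y, Rel E f x y

/-- `f` is a function from `a` to `b` -/
def IsMap (f a b : M) : Prop := IsFn E f a ∧ ∀ x y, Rel E f x y → E y b

/-- `x` is an ordinal number: a transitive set of transitive sets -/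
def IsOrd (x : M) : Prop :=
  (∀ y, E y x → Sub E y x) ∧ ∀ y, E y x → ∀ z, E z y → Sub E z y

/-- `y` is the successor of `x` -/
def IsSucc (y x : M) : Prop := ∀ z, E z y ↔ E z x ∨ z = x

/-- `w` is the set of natural numbers -/
def IsOmega (w : M) : Prop :=
  IsOrd E w ∧ (∃ e, E e w ∧ IsEmp E e) ∧ (∀ x, E x w → ∃ y, E y w ∧ IsSucc E y x) ∧
    ∀ x, E x w → IsEmp E x ∨ ∃ y, IsSucc E x y

/-- `k` is the least ordinal with the property `P` -/
def LeastOrd (P : M → Prop) (k : M) : Prop :=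
  IsOrd E k ∧ P k ∧ ∀ j, IsOrd E j → P j → k = j ∨ E k j

/-- `k` is the first uncountable ordinal: the least ordinal without an injection into `w` -/
def IsAleph1 (w k : M) : Prop :=
  LeastOrd E (fun j => ¬ ∃ f, IsMap E f j w ∧ ∀ x y z, Rel E f x z → Rel E f y z → x = y) k

/-! ### the Cantor space `P(w)`; `w` is the set of natural numbers -/

/-- `x ∩ n = a` -/
def Cut (x n a : M) : Prop := ∀ z, E z a ↔ E z x ∧ E z n

/-- the cylinder `{x ⊆ w | x ∩ n = a}` is contained in `U` -/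
def CylIn (w n a U : M) : Prop := ∀ x, Sub E x w → Cut E x n a → E x U

/-- `U` is an open set of the Cantor space `P(w)` -/
def IsOpn (w U : M) : Prop :=
  (∀ x, E x U → Sub E x w) ∧
    ∀ x, E x U → ∃ n a, E n w ∧ Cut E x n a ∧ CylIn E w n a U

/-- the open set `U` has measure at most `2 ^ (-k)`: for every natural number `n` there is an
injection of `P(k) × {a ⊆ n | the cylinder of a is contained in U}` into `P(n)` -/
def MeasLe (w U k : M) : Prop :=
  ∀ n, E n w → ∃ g, (∀ b a, Sub E b k → Sub E a n → CylIn E w n a U →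
      ∃ p c, IsPair E p b a ∧ Sub E c n ∧ Rel E g p c) ∧
    (∀ p q c, Rel E g p c → Rel E g q c → p = q)

/-- the predicate `P` on subsets of `w` defines a set of measure zero -/
def Null (w : M) (P : M → Prop) : Prop :=
  ∀ k, E k w → ∃ U, IsOpn E w U ∧ MeasLe E w U k ∧ ∀ x, Sub E x w → P x → E x U

/-- the predicate `P` on subsets of `w` defines a closed set -/
def ClosedP (w : M) (P : M → Prop) : Prop :=
  ∀ x, Sub E x w → ¬ P x → ∃ n a, E n w ∧ Cut E x n a ∧
    ∀ y, Sub E y w → Cut E y n a → ¬ P y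

/-- the predicate `P` on subsets of `w` defines a set contained in a countable union of closed
sets of measure zero -/
def NullE (w : M) (P : M → Prop) : Prop :=
  ∃ r, (∀ i, E i w → ClosedP E w (Rel E r i) ∧ Null E w (Rel E r i)) ∧
    ∀ x, Sub E x w → P x → ∃ i, E i w ∧ Rel E r i x

/-- the predicate `P` on subsets of `w` defines a set contained in a countable union of closed
sets without interior points -/
def Meager (w : M) (P : M → Prop) : Prop :=
  ∃ r, (∀ i, E i w → ClosedP E w (Rel E r i) ∧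
      ∀ n a, E n w → Sub E a n → ∃ x, Sub E x w ∧ Cut E x n a ∧ ¬ Rel E r i x) ∧
    ∀ x, Sub E x w → P x → ∃ i, E i w ∧ Rel E r i x

/-! ### the cardinal invariants -/

/-- `k = add(I)`: the least length of a sequence of sets in `I` whose union is not in `I` -/
def IsAdd (I : (M → Prop) → Prop) (k : M) : Prop :=
  LeastOrd E (fun j => ∃ r, (∀ i, E i j → I (Rel E r i)) ∧
    ¬ I (fun x => ∃ i, E i j ∧ Rel E r i x)) k

/-- `k = cov(I)`: the least length of a sequence of sets in `I` whose union is `P(w)` -/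
def IsCov (w : M) (I : (M → Prop) → Prop) (k : M) : Prop :=
  LeastOrd E (fun j => ∃ r, (∀ i, E i j → I (Rel E r i)) ∧
    ∀ x, Sub E x w → ∃ i, E i j ∧ Rel E r i x) k

/-- `k = non(I)`: the least length of a sequence of points of `P(w)` whose range is not in `I` -/
def IsNon (w : M) (I : (M → Prop) → Prop) (k : M) : Prop :=
  LeastOrd E (fun j => ∃ f, IsFn E f j ∧ (∀ i x, Rel E f i x → Sub E x w) ∧
    ¬ I (fun x => ∃ i, Rel E f i x)) k

/-- `f ≤* g` for functions from `w` to `w` -/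
def LeStar (w f g : M) : Prop :=
  ∃ m, E m w ∧ ∀ n y z, E n w → ¬ E n m → Rel E f n y → Rel E g n z → y = z ∨ E y z

/-- `k = b`: the least length of an unbounded sequence of functions from `w` to `w` -/
def IsB (w k : M) : Prop :=
  LeastOrd E (fun j => ∃ F, IsFn E F j ∧ (∀ i f, Rel E F i f → IsMap E f w w) ∧
    ¬ ∃ g, IsMap E g w w ∧ ∀ i f, Rel E F i f → LeStar E w f g) k

/-- `k = d`: the least length of a dominating sequence of functions from `w` to `w` -/
def IsD (w k : M) : Prop :=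
  LeastOrd E (fun j => ∃ F, IsFn E F j ∧ (∀ i f, Rel E F i f → IsMap E f w w) ∧
    ∀ g, IsMap E g w w → ∃ i f, Rel E F i f ∧ LeStar E w g f) k

/-- `k = c`: the least length of a sequence with range `P(w)` -/
def IsC (w k : M) : Prop :=
  LeastOrd E (fun j => ∃ f, IsFn E f j ∧ ∀ x, Sub E x w → ∃ i, Rel E f i x) k

/-- the statement of Q1, inside `M` -/
def Chain : Prop :=
  ∃ w k₀ k₁ k₂ k₃ k₄ k₅ k₆ k₇ : M, IsOmega E w ∧ IsAleph1 E w k₀ ∧
    IsAdd E (Null E w) k₁ ∧ IsB E w k₂ ∧ IsCov E w (Null E w) k₃ ∧ IsNon E w (NullE E w) k₄ ∧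
    IsNon E w (Meager E w) k₅ ∧ IsCov E w (Meager E w) k₆ ∧ IsCov E w (NullE E w) k₇ ∧
    IsNon E w (Null E w) k₇ ∧ IsD E w k₇ ∧ IsC E w k₇ ∧
    E k₀ k₁ ∧ E k₁ k₂ ∧ E k₂ k₃ ∧ E k₃ k₄ ∧ E k₄ k₅ ∧ E k₅ k₆ ∧ E k₆ k₇

end

end CI
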